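import Pool.Agent.H110R3.Bih5

set_option autoImplicit false

namespace Pool.Agent.Results.MP_44343f_gt.CompleteCounterexample

open Pool.Agent.H110R3.Bih

/-- **Disproof of Q1.** There are a complete Riemannian metric `h` of nonpositive sectional
curvature on `N = ℝ⁵` (with Levi-Civita connection `Γ`), a complete Riemannian metric `g` on
`M = ℝ⁴` (with Levi-Civita connection `ΓM`) and an isometric immersion `φ : (M,g) → (N,h)` which
is biharmonic but not minimal. -/
theorem result :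
    ∃ (h : RMetric (ℝ × ℝ × EuclideanSpace ℝ (Fin 3)))
      (Γ : Conn (ℝ × ℝ × EuclideanSpace ℝ (Fin 3)))
      (g : RMetric (ℝ × EuclideanSpace ℝ (Fin 3)))
      (ΓM : Conn (ℝ × EuclideanSpace ℝ (Fin 3)))
      (φ : ℝ × EuclideanSpace ℝ (Fin 3) → ℝ × ℝ × EuclideanSpace ℝ (Fin 3)),
      h.Complete ∧ IsLeviCivita h Γ ∧ NonposCurved h Γ ∧
      g.Complete ∧ IsLeviCivita g ΓM ∧ IsIsometricImmersion g h φ ∧
      IsBiharmonic 4 g ΓM Γ φ ∧ ¬ IsMinimal 4 g ΓM Γ φ :=
  counterexample

end Pool.Agent.Results.MP_44343f_gt.CompleteCounterexample
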